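import Pool.Agent.Helper64.DG.In

/-! MP_866009_co, Helly models: placing an interval through a determined point. -/

set_option autoImplicit false

namespace Pool.Agent.Helper64.DG

open Pool.Agent.Helper64.DT (DF)
open Pool.Agent.Helper64.HG (Ovl Model Circ HellyCircle ChordModel)
open Filter Topology

variable {V : Type} {G : SimpleGraph V} {l0 r0 l r : V → ℝ} {dep : V → ℕ} {S : Finset V} {y : V}

theorem sum_ne {G : SimpleGraph V} {l0 r0 l r : V → ℝ} {dep : V → ℕ} {S : Finset V}
    (C : Ctx G l0 r0 dep) (I : Inv G l0 r0 dep S l r) {u v : V} (hu : u ∈ S) (hv : v ∈ S)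
    (h : G.Adj u v) : l u + r u ≠ l v + r v := by
  rcases (C.adj u v).1 h with ⟨h1, -, h3⟩ | ⟨h1, -, h3⟩
  · have e1 : l u < l v := I.ord (u, false) (v, false) hu hv h1
    have e2 : r u < r v := I.ord (u, true) (v, true) hu hv h3
    intro e
    linarith
  · have e1 : l v < l u := I.ord (v, false) (u, false) hv hu h1
    have e2 : r v < r u := I.ord (v, true) (u, true) hv hu h3
    intro e
    linarith

/-- there is a determined point on `y` -/
theorem caseI (C : Ctx G l0 r0 dep) (hS : ∀ a, a ∈ S ↔ Od l0 dep a y)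
    (I : Inv G l0 r0 dep S l r)
    (h : ∃ x ∈ S, dep x = dep y ∧ G.Adj x y ∧ ∃ c ∈ S, G.Adj c x ∧ G.Adj c y) :
    ∃ f LB UB, Ins G l0 r0 dep S l r y f LB UB := by
  classical
  have hyS : y ∉ S := fun e => by
    rcases (hS y).1 e with h1 | ⟨-, h1⟩
    · exact lt_irrefl _ h1
    · exact lt_irrefl _ h1
  obtain ⟨x, hxS, dx, axy, hxy, hmax, m, k, hk, hcl, hpm, hpq⟩ := detp C hS I h
  obtain ⟨x_1, x_2⟩ := C.adj_lt axy hxy
  have tx : Thr m k (l x) (r x) := hcl x hxS (Or.inl rfl)
  have hlrx : l x < r x := I.ord (x, false) (x, true) hxS hxS (C.mod.lt x)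
  obtain ⟨loc1, loc2⟩ := thr_loc tx hk hlrx
  obtain ⟨A2, hA2⟩ := exists_fins S (fun p => E l0 r0 p < r0 y) (E l r)
  obtain ⟨A1, hA1⟩ := exists_fins S (fun p => E l0 r0 p < l0 y) (fun p => rg m k (E l r p))
  obtain ⟨B2, hB2⟩ := exists_fins S (fun p => r0 y < E l0 r0 p) (E l r)
  have hy := C.mod.lt y
  have hrxA : r x ∈ A2 := (hA2 _).2 ⟨(x, true), hxS, x_2, rfl⟩
  refine ⟨lf m k, A2 ∪ A1, B2, ⟨⟨r x, Finset.mem_union_left _ hrxA⟩, ?_, ?_, ?_⟩⟩
  · intro a ha b hb
    obtain ⟨q, q1, q2, rfl⟩ := (hB2 b).1 hb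
    rcases Finset.mem_union.1 ha with ha | ha
    · obtain ⟨p, p1, p2, rfl⟩ := (hA2 a).1 ha
      exact I.ord p q p1 q1 (p2.trans q2)
    · obtain ⟨p, p1, p2, rfl⟩ := (hA1 a).1 ha
      exact rg_lt (hpm p p1 p2) (hpq p q p1 q1 p2 (x_2.trans q2))
  · intro t ht1 ht2
    have hrt : r x < t := ht1 _ (Finset.mem_union_left _ hrxA)
    have hmt : m < t := loc2.trans hrt
    have hft := lf_lt hk hmt
    have tt : Thr m k (lf m k t) t := thr_lf hmt
    have q1 : ∀ p : V × Bool, p.1 ∈ S → E l0 r0 p < l0 y → E l r p < lf m k t := by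
      intro p hp h1
      exact lt_lf hk hmt (hpm p hp h1)
        (ht1 _ (Finset.mem_union_right _ ((hA1 _).2 ⟨p, hp, h1, rfl⟩)))
    have q3 : ∀ p : V × Bool, p.1 ∈ S → E l0 r0 p < r0 y → E l r p < t := fun p hp h1 =>
      ht1 _ (Finset.mem_union_left _ ((hA2 _).2 ⟨p, hp, h1, rfl⟩))
    have q4 : ∀ p : V × Bool, p.1 ∈ S → r0 y < E l0 r0 p → t < E l r p := fun p hp h1 =>
      ht2 _ ((hB2 _).2 ⟨p, hp, h1, rfl⟩)
    have q2 : ∀ p : V × Bool, p.1 ∈ S → l0 y < E l0 r0 p → lf m k t < E l r p := by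
      intro p hp h1
      rcases lt_or_ge (E l r p) m with h2 | h2
      · have h3 : E l0 r0 p < r0 x := by
          by_contra h3
          push Not at h3
          have : r x ≤ E l r p := Inv.le C I (p := (x, true)) hxS hp h3
          linarith
        obtain ⟨c, b⟩ := p
        have hcx : c ≠ x := by
          rintro rfl
          cases b
          · exact lt_asymm h1 hxy
          · exact lt_irrefl _ h3
        have hcy : c ≠ y := fun e => hyS (e ▸ hp)
        have dc := od_dep ((hS c).1 hp)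
        have a1 : G.Adj c x := by
          refine C.cross (by omega) hcx ?_
          cases b
          · exact Or.inl ⟨hxy.trans h1, h3⟩
          · exact Or.inr ⟨hxy.trans h1, h3⟩
        have a2 : G.Adj c y := by
          refine C.cross dc hcy ?_
          cases b
          · exact Or.inl ⟨h1, h3.trans x_2⟩
          · exact Or.inr ⟨h1, h3.trans x_2⟩
        have tc := hcl c hp (Or.inr ⟨a1, a2⟩)
        have hlrc : l c < r c := I.ord (c, false) (c, true) hp hp (C.mod.lt c)
        obtain ⟨lc1, lc2⟩ := thr_loc tc hk hlrc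
        cases b
        · have h4 : r0 y < r0 c := (C.adj_lt a2.symm h1).2
          have h5 : t < r c := q4 (c, true) hp h4
          exact thr_mono hk tt tc (hft.trans hmt) hlrc h5
        · exact absurd (lc2.trans h2) (lt_irrefl _)
      · exact lt_of_lt_of_le hft h2
    have hin : ∀ u ∈ S, ∀ v ∈ S, G.Adj u v → G.Adj u y → G.Adj v y → Thr m k (l u) (r u) := by
      intro u hu v hv huv huy hvy
      have du := od_dep ((hS u).1 hu)
      have dv := od_dep ((hS v).1 hv)
      have hlt : ∀ x' ∈ S, dep x' = dep y → l0 x' < l0 y := by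
        intro x' h1 h2
        rcases (hS x').1 h1 with h4 | ⟨-, h4⟩
        · omega
        · exact h4
      have hsame : ∀ x' ∈ S, dep x' = dep y → G.Adj x' y → x' ≠ x → G.Adj x' x := by
        intro x' h1 h2 h3 h4
        have h5 : l0 x' < l0 x := lt_of_le_of_ne (hmax x' h1 h2 h3) (C.lne h4)
        have h6 := (C.adj_lt h3 (hlt x' h1 h2)).1
        exact (C.cross (by omega) h4.symm (Or.inl ⟨h5, hxy.trans h6⟩)).symm
      by_cases hux : u = x
      · subst hux
        exact tx
      · refine hcl u hu (Or.inr ⟨?_, huy⟩)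
        rcases C.tri huv huy hvy with h1 | h1
        · exact hsame u hu (by omega) huy hux
        · by_cases hvx : v = x
          · subst hvx
            exact huv
          · have h2 := hsame v hv (by omega) hvy hvx
            exact C.df v y u x hvy huv.symm huy.symm h2 axy.symm hux
    refine ⟨hft.trans hmt, q1, q2, q3, q4, ?_, ?_⟩
    · intro u hu v hv huv huy hvy m' k' t1 t2
      obtain ⟨rfl, rfl⟩ := thr_uniq (sum_ne C I hu hv huv) t1 t2 (hin u hu v hv huv huy hvy)
        (hin v hv u hu huv.symm hvy huy)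
      exact tt
    · intro u hu v hv huv huy hvy m' k' t1 t2
      have hne : l u + r u ≠ lf m k t + t := by
        rcases (C.adj u y).1 huy with ⟨h1, -, h3⟩ | ⟨h1, -, h3⟩
        · have e1 : l u < lf m k t := q1 (u, false) hu h1
          have e2 : r u < t := q3 (u, true) hu h3
          intro e
          linarith
        · have e1 : lf m k t < l u := q2 (u, false) hu h1
          have e2 : t < r u := q4 (u, true) hu h3
          intro e
          linarith
      obtain ⟨rfl, rfl⟩ := thr_uniq hne t1 t2 (hin u hu v hv huv huy hvy) tt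
      exact hin v hv u hu huv.symm hvy huy
  · intro c hc h1 h2 h3 h4
    have hxc : r0 x < E l0 r0 c := h4 x hxS dx axy
    have hrc : r x < E l r c := I.ord (x, true) c hxS hc hxc
    have hmc : m < E l r c := loc2.trans hrc
    refine ⟨?_, Finset.mem_union_left _ ((hA2 _).2 ⟨c, hc, h2, rfl⟩), lf m k (E l r c),
      tendsto_lf hmc, (lf_lt hk hmc).trans hmc, ?_⟩
    · intro a ha
      rcases Finset.mem_union.1 ha with ha | ha
      · obtain ⟨p, p1, p2, rfl⟩ := (hA2 a).1 ha
        exact Inv.le C I p1 hc (h3 p p1 p2)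
      · obtain ⟨p, p1, p2, rfl⟩ := (hA1 a).1 ha
        exact (rg_lt (hpm p p1 p2) (hpq p c p1 hc p2 hxc)).le
    · intro p hp h5
      exact lt_lf hk hmc (hpm p hp h5) (rg_lt (hpm p hp h5) (hpq p c hp hc h5 hxc))

end Pool.Agent.Helper64.DG
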