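import Pool.Agent.Helper64.DT.Defs
import Pool.Agent.Helper64.HG.Defs

/-! MP_866009_co: diamond-free circle graphs have Helly models (Daligault, Goncalves, Rao): statements.
The chord with the real ends `s < t` passes through the point `(m, k)`, `k > 0`, when
`(s - m) * (t - m) + k = 0`. -/

set_option autoImplicit false

namespace Pool.Agent.Helper64.DG

open Pool.Agent.Helper64.DT (DF)
open Pool.Agent.Helper64.HG (Ovl Model Circ HellyCircle ChordModel)

variable {V : Type}

/-- the chord with the real ends `s`, `t` passes through the point `(m, k)` -/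
def Thr (m k s t : ℝ) : Prop := (s - m) * (t - m) + k = 0

/-- a real model with concurrent triangles -/
def HModel (G : SimpleGraph V) (l r : V → ℝ) : Prop := Model G l r ∧
  ∀ u v w, G.Adj u v → G.Adj u w → G.Adj v w → ∃ m k : ℝ, 0 < k ∧
    Thr m k (l u) (r u) ∧ Thr m k (l v) (r v) ∧ Thr m k (l w) (r w)

/-- a real model with concurrent triangles gives a Helly chord model -/
def ST_HGE : Prop := ∀ (V : Type) (G : SimpleGraph V) (l r : V → ℝ), HModel G l r → HellyCircle G

/-- Helly circle graphs are diamond-free -/
def ST_HDF : Prop := ∀ (V : Type) (G : SimpleGraph V), HellyCircle G → DF G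

/-- depth for a relation `R` (contained in) -/
def ST_DEP : Prop := ∀ (V : Type) [Finite V] (R : V → V → Prop), (∀ a, ¬ R a a) →
  (∀ a b c, R a b → R b c → R a c) → ∃ dep : V → ℕ, (∀ z y, R z y → dep z < dep y) ∧
    ∀ y, 0 < dep y → ∃ z, R z y ∧ dep z + 1 = dep y

/-- diamond-free models can be made Helly -/
def ST_HMO : Prop := ∀ (V : Type) [Finite V] (G : SimpleGraph V) (l0 r0 : V → ℝ), DF G →
  Model G l0 r0 → ∃ l r : V → ℝ, HModel G l r

end Pool.Agent.Helper64.DG
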