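import Pool.Agent.Helper64.DG.St

/-! MP_866009_co, Helly models: diamond-free circle graphs have Helly models (Daligault, Goncalves,
Rao), real form. -/

set_option autoImplicit false

namespace Pool.Agent.Helper64.DG

open Pool.Agent.Helper64.DT (DF)
open Pool.Agent.Helper64.HG (Ovl Model Circ HellyCircle ChordModel)

theorem st_DEP : ST_DEP := by
  intro V _ R hirr htr
  classical
  haveI : Fintype V := Fintype.ofFinite V
  haveI : IsTrans V R := ⟨htr⟩
  haveI : Std.Irrefl R := ⟨hirr⟩
  have hwf : WellFounded R := Finite.wellFounded_of_trans_of_irrefl R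
  let F : (y : V) → ((z : V) → R z y → ℕ) → ℕ := fun y IH =>
    Finset.univ.sup (fun z => if h : R z y then IH z h + 1 else 0)
  let dep : V → ℕ := hwf.fix F
  have eq : ∀ y, dep y = Finset.univ.sup (fun z => if _ : R z y then dep z + 1 else 0) :=
    fun y => hwf.fix_eq F y
  refine ⟨dep, fun z y h => ?_, fun y h => ?_⟩
  · have h1 : (fun z => if _ : R z y then dep z + 1 else 0) z ≤
        Finset.univ.sup (fun z => if _ : R z y then dep z + 1 else 0) :=
      Finset.le_sup (f := fun z => if _ : R z y then dep z + 1 else 0) (Finset.mem_univ z)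
    rw [← eq y] at h1
    simp only [h, dif_pos] at h1
    omega
  · obtain ⟨z, -, hz⟩ := Finset.exists_mem_eq_sup (Finset.univ : Finset V) ⟨y, Finset.mem_univ y⟩
      (fun z => if _ : R z y then dep z + 1 else 0)
    rw [← eq y] at hz
    by_cases hR : R z y
    · simp only [hR, dif_pos] at hz
      exact ⟨z, hR, hz.symm⟩
    · simp only [hR, dif_neg, not_false_eq_true] at hz
      omega

theorem all_inv {V : Type} [Finite V] {G : SimpleGraph V} {l0 r0 : V → ℝ} {dep : V → ℕ}
    (C : Ctx G l0 r0 dep) : ∀ (n : ℕ) (S : Finset V), S.card = n →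
    (∀ a b, b ∈ S → Od l0 dep a b → a ∈ S) → ∃ l r, Inv G l0 r0 dep S l r := by
  classical
  intro n
  induction n with
  | zero =>
    intro S hS _
    have hS' : S = ∅ := Finset.card_eq_zero.1 hS
    subst hS'
    refine ⟨fun _ => 0, fun _ => 0, ⟨fun p q hp => ?_, fun u hu => ?_, fun y x w N => ?_⟩⟩
    · exact absurd hp (Finset.notMem_empty _)
    · exact absurd hu (Finset.notMem_empty _)
    · exact absurd N.xS (Finset.notMem_empty _)
  | succ n ih =>
    intro S hS hcl
    have hne : S.Nonempty := by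
      rw [← Finset.card_pos]
      omega
    obtain ⟨y, hy, hmax⟩ := Finset.exists_max_image S (fun a => toLex (dep a, l0 a)) hne
    have hod : ∀ a ∈ S, a ≠ y → Od l0 dep a y := by
      intro a ha hay
      have h1 := hmax a ha
      simp only [Prod.Lex.toLex_le_toLex] at h1
      rcases h1 with h1 | ⟨h1, h2⟩
      · exact Or.inl h1
      · exact Or.inr ⟨h1, lt_of_le_of_ne h2 (C.lne hay)⟩
    have hmem : ∀ a, a ∈ S.erase y ↔ Od l0 dep a y := by
      intro a
      rw [Finset.mem_erase]
      constructor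
      · rintro ⟨h1, h2⟩
        exact hod a h2 h1
      · intro h
        refine ⟨?_, hcl a y hy h⟩
        rintro rfl
        exact C.od_asymm h h
    obtain ⟨l, r, I⟩ := ih (S.erase y) (by rw [Finset.card_erase_of_mem hy]; omega) (by
      intro a b hb hab
      rw [hmem] at hb ⊢
      have h1 : a ∈ S := hcl a y hy (by
        unfold Od at hab hb ⊢
        rcases hab with h | ⟨h, h'⟩ <;> rcases hb with g | ⟨g, g'⟩
        · left; omega
        · left; omega
        · left; omega
        · right; exact ⟨by omega, h'.trans g'⟩)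
      refine hod a h1 ?_
      rintro rfl
      exact C.od_asymm hab hb)
    obtain ⟨l', r', I'⟩ := step C hmem I
    rw [Finset.insert_erase hy] at I'
    exact ⟨l', r', I'⟩

theorem st_HMO : ST_HMO := by
  intro V _ G l0 r0 hD M
  classical
  haveI : Fintype V := Fintype.ofFinite V
  obtain ⟨dep, d1, d2⟩ := st_DEP V (fun z y => l0 z < l0 y ∧ r0 y < r0 z)
    (fun a h => lt_irrefl _ h.1) (fun a b c h1 h2 => ⟨h1.1.trans h2.1, h2.2.trans h1.2⟩)
  have C : Ctx G l0 r0 dep := ⟨M, hD, fun z y h1 h2 => d1 z y ⟨h1, h2⟩, fun y h => by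
    obtain ⟨z, ⟨z1, z2⟩, z3⟩ := d2 y h
    exact ⟨z, z1, z2, z3⟩⟩
  obtain ⟨l, r, I⟩ := all_inv C _ Finset.univ rfl (fun a b _ _ => Finset.mem_univ a)
  have ord : ∀ p q : V × Bool, E l0 r0 p < E l0 r0 q → E l r p < E l r q := fun p q h =>
    I.ord p q (Finset.mem_univ _) (Finset.mem_univ _) h
  have iff' : ∀ p q : V × Bool, E l0 r0 p < E l0 r0 q ↔ E l r p < E l r q := by
    intro p q
    refine ⟨ord p q, fun h => ?_⟩
    rcases lt_trichotomy (E l0 r0 p) (E l0 r0 q) with h1 | h1 | h1
    · exact h1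
    · rw [C.E_inj h1] at h
      exact absurd h (lt_irrefl _)
    · exact absurd (ord q p h1) (lt_asymm h)
  have inj : Function.Injective (E l r) := by
    intro p q h
    rcases lt_trichotomy (E l0 r0 p) (E l0 r0 q) with h1 | h1 | h1
    · exact absurd h (ord p q h1).ne
    · exact C.E_inj h1
    · exact absurd h (ord q p h1).ne'
  have hM : Model G l r := by
    refine ⟨fun v => ord (v, false) (v, true) (M.lt v), fun u v h => ?_, fun u v h => ?_,
      fun u v h => ?_, fun u v => ?_⟩
    · have := @inj (u, false) (v, false) h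
      exact (Prod.mk.inj this).1
    · have := @inj (u, true) (v, true) h
      exact (Prod.mk.inj this).1
    · have := @inj (u, false) (v, true) h
      exact absurd (Prod.mk.inj this).2 (by simp)
    · rw [C.adj u v]
      have a1 : l0 u < l0 v ↔ l u < l v := iff' (u, false) (v, false)
      have a2 : l0 v < r0 u ↔ l v < r u := iff' (v, false) (u, true)
      have a3 : r0 u < r0 v ↔ r u < r v := iff' (u, true) (v, true)
      have b1 : l0 v < l0 u ↔ l v < l u := iff' (v, false) (u, false)
      have b2 : l0 u < r0 v ↔ l u < r v := iff' (u, false) (v, true)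
      have b3 : r0 v < r0 u ↔ r v < r u := iff' (v, true) (u, true)
      unfold Ovl
      rw [a1, a2, a3, b1, b2, b3]
  refine ⟨l, r, hM, ?_⟩
  intro u v w huv huw hvw
  have hc := I.con u (Finset.mem_univ _) v (Finset.mem_univ _) w (Finset.mem_univ _) huv huw hvw
  have hex : ∃ m k : ℝ, 0 < k ∧ Thr m k (l u) (r u) ∧ Thr m k (l v) (r v) := by
    rcases (hM.adj u v).1 huv with ⟨h1, h2, h3⟩ | ⟨h1, h2, h3⟩
    · obtain ⟨m, k, hk, b1, b2⟩ := thr_ex h1 h2 h3
      exact ⟨m, k, hk, b1, b2⟩
    · obtain ⟨m, k, hk, b1, b2⟩ := thr_ex h1 h2 h3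
      exact ⟨m, k, hk, b2, b1⟩
  obtain ⟨m, k, hk, b1, b2⟩ := hex
  exact ⟨m, k, hk, b1, b2, hc m k b1 b2⟩

end Pool.Agent.Helper64.DG
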