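import Pool.Agent.Helper64.DG.Kb

/-! MP_866009_co, Helly models: placing one more interval. -/

set_option autoImplicit false

namespace Pool.Agent.Helper64.DG

open Pool.Agent.Helper64.DT (DF)
open Pool.Agent.Helper64.HG (Ovl Model Circ HellyCircle ChordModel)
open Filter Topology

variable {V : Type}

/-- `y` is the next interval to be placed, `x` is the only interval of the same depth placed before
that crosses `y`, and `w` is a less deep interval crossing both -/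
structure Nx (G : SimpleGraph V) (l0 : V → ℝ) (dep : V → ℕ) (S : Finset V) (y x w : V) : Prop where
  yS : y ∉ S
  nx : ∀ a, Od l0 dep a y → a ∈ S
  xS : x ∈ S
  wS : w ∈ S
  dx : dep x = dep y
  xy : G.Adj x y
  uq : ∀ x' ∈ S, dep x' = dep y → G.Adj x' y → x' = x
  dw : dep w < dep y
  wx : G.Adj w x
  wy : G.Adj w y

/-- the intervals in `S` are placed, in such a way that the next one can be placed -/
structure Inv (G : SimpleGraph V) (l0 r0 : V → ℝ) (dep : V → ℕ) (S : Finset V) (l r : V → ℝ) :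
    Prop where
  ord : ∀ p q : V × Bool, p.1 ∈ S → q.1 ∈ S → E l0 r0 p < E l0 r0 q → E l r p < E l r q
  con : ∀ u ∈ S, ∀ v ∈ S, ∀ w ∈ S, G.Adj u v → G.Adj u w → G.Adj v w → ∀ m k : ℝ,
    Thr m k (l u) (r u) → Thr m k (l v) (r v) → Thr m k (l w) (r w)
  la : ∀ y x w, Nx G l0 dep S y x w → ∃ m k : ℝ, 0 < k ∧ Thr m k (l x) (r x) ∧
    Thr m k (l w) (r w) ∧ (∀ p : V × Bool, p.1 ∈ S → E l0 r0 p < l0 y → E l r p < m) ∧
    ∀ p q : V × Bool, p.1 ∈ S → q.1 ∈ S → E l0 r0 p < l0 y → r0 x < E l0 r0 q →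
      (E l r p - m) * (E l r q - m) + k < 0

/-- the conditions for the two ends of `y` -/
structure Ps (G : SimpleGraph V) (l0 r0 : V → ℝ) (S : Finset V) (l r : V → ℝ) (y : V) (s t : ℝ) :
    Prop where
  st : s < t
  p1 : ∀ p : V × Bool, p.1 ∈ S → E l0 r0 p < l0 y → E l r p < s
  p2 : ∀ p : V × Bool, p.1 ∈ S → l0 y < E l0 r0 p → s < E l r p
  p3 : ∀ p : V × Bool, p.1 ∈ S → E l0 r0 p < r0 y → E l r p < t
  p4 : ∀ p : V × Bool, p.1 ∈ S → r0 y < E l0 r0 p → t < E l r p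
  c1 : ∀ u ∈ S, ∀ v ∈ S, G.Adj u v → G.Adj u y → G.Adj v y → ∀ m k : ℝ,
    Thr m k (l u) (r u) → Thr m k (l v) (r v) → Thr m k s t
  c2 : ∀ u ∈ S, ∀ v ∈ S, G.Adj u v → G.Adj u y → G.Adj v y → ∀ m k : ℝ,
    Thr m k (l u) (r u) → Thr m k s t → Thr m k (l v) (r v)

/-- a way to place `y`: the right end is between the numbers in `LB` and those in `UB`, the left
end is a function of the right end -/
structure Ins (G : SimpleGraph V) (l0 r0 : V → ℝ) (dep : V → ℕ) (S : Finset V) (l r : V → ℝ)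
    (y : V) (f : ℝ → ℝ) (LB UB : Finset ℝ) : Prop where
  ne : LB.Nonempty
  sep : ∀ a ∈ LB, ∀ b ∈ UB, a < b
  ok : ∀ t, (∀ a ∈ LB, a < t) → (∀ b ∈ UB, t < b) → Ps G l0 r0 S l r y (f t) t
  near : ∀ c : V × Bool, c.1 ∈ S → l0 y < E l0 r0 c → E l0 r0 c < r0 y →
    (∀ q : V × Bool, q.1 ∈ S → E l0 r0 q < r0 y → E l0 r0 q ≤ E l0 r0 c) →
    (∀ x ∈ S, dep x = dep y → G.Adj x y → r0 x < E l0 r0 c) →
    (∀ a ∈ LB, a ≤ E l r c) ∧ E l r c ∈ LB ∧ ∃ s0, Tendsto f (𝓝[>] (E l r c)) (𝓝 s0) ∧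
      s0 < E l r c ∧ ∀ p : V × Bool, p.1 ∈ S → E l0 r0 p < l0 y → E l r p < s0

section

variable {G : SimpleGraph V} {l0 r0 l r : V → ℝ} {dep : V → ℕ} {S : Finset V} {y : V}

theorem Inv.le (C : Ctx G l0 r0 dep) (I : Inv G l0 r0 dep S l r) {p q : V × Bool} (hp : p.1 ∈ S)
    (hq : q.1 ∈ S) (h : E l0 r0 p ≤ E l0 r0 q) : E l r p ≤ E l r q := by
  rcases h.lt_or_eq with h1 | h1
  · exact (I.ord p q hp hq h1).le
  · rw [C.E_inj h1]

theorem exists_fins (S : Finset V) (P : V × Bool → Prop) (g : V × Bool → ℝ) :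
    ∃ A : Finset ℝ, ∀ a, a ∈ A ↔ ∃ p : V × Bool, p.1 ∈ S ∧ P p ∧ g p = a := by
  classical
  refine ⟨((S ×ˢ (Finset.univ : Finset Bool)).filter P).image g, fun a => ?_⟩
  simp only [Finset.mem_image, Finset.mem_filter, Finset.mem_product, Finset.mem_univ, and_true]
  constructor
  · rintro ⟨p, ⟨h1, h2⟩, h3⟩
    exact ⟨p, h1, h2, h3⟩
  · rintro ⟨p, h1, h2, h3⟩
    exact ⟨p, ⟨h1, h2⟩, h3⟩

/-- no determined point on `y` -/
theorem caseII (C : Ctx G l0 r0 dep) (hS : ∀ a, a ∈ S ↔ Od l0 dep a y)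
    (I : Inv G l0 r0 dep S l r)
    (h : ¬ ∃ x ∈ S, dep x = dep y ∧ G.Adj x y ∧ ∃ c ∈ S, G.Adj c x ∧ G.Adj c y) :
    ∃ f LB UB, Ins G l0 r0 dep S l r y f LB UB := by
  classical
  obtain ⟨A1, hA1⟩ := exists_fins S (fun p => E l0 r0 p < l0 y) (E l r)
  obtain ⟨B1, hB1⟩ := exists_fins S (fun p => l0 y < E l0 r0 p) (E l r)
  obtain ⟨A2, hA2⟩ := exists_fins S (fun p => E l0 r0 p < r0 y) (E l r)
  obtain ⟨B2, hB2⟩ := exists_fins S (fun p => r0 y < E l0 r0 p) (E l r)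
  have hy := C.mod.lt y
  obtain ⟨s, hs1, hs2⟩ := Order.exists_between_finsets A1 B1 (by
    intro a ha b hb
    obtain ⟨p, p1, p2, rfl⟩ := (hA1 a).1 ha
    obtain ⟨q, q1, q2, rfl⟩ := (hB1 b).1 hb
    exact I.ord p q p1 q1 (p2.trans q2))
  have key : ∀ u ∈ S, ∀ v ∈ S, G.Adj u v → G.Adj u y → G.Adj v y → False := by
    intro u hu v hv huv huy hvy
    have du := od_dep ((hS u).1 hu)
    have dv := od_dep ((hS v).1 hv)
    rcases C.tri huv huy hvy with h1 | h1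
    · exact h ⟨u, hu, by omega, huy, v, hv, huv.symm, hvy⟩
    · exact h ⟨v, hv, by omega, hvy, u, hu, huv, huy⟩
  refine ⟨fun _ => s, insert s A2, B2, ⟨⟨s, Finset.mem_insert_self _ _⟩, ?_, ?_, ?_⟩⟩
  · intro a ha b hb
    obtain ⟨q, q1, q2, rfl⟩ := (hB2 b).1 hb
    rcases Finset.mem_insert.1 ha with rfl | ha
    · exact hs2 _ ((hB1 _).2 ⟨q, q1, hy.trans q2, rfl⟩)
    · obtain ⟨p, p1, p2, rfl⟩ := (hA2 a).1 ha
      exact I.ord p q p1 q1 (p2.trans q2)
  · intro t ht1 ht2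
    exact ⟨ht1 s (Finset.mem_insert_self _ _),
      fun p hp h1 => hs1 _ ((hA1 _).2 ⟨p, hp, h1, rfl⟩),
      fun p hp h1 => hs2 _ ((hB1 _).2 ⟨p, hp, h1, rfl⟩),
      fun p hp h1 => ht1 _ (Finset.mem_insert_of_mem ((hA2 _).2 ⟨p, hp, h1, rfl⟩)),
      fun p hp h1 => ht2 _ ((hB2 _).2 ⟨p, hp, h1, rfl⟩),
      fun u hu v hv huv huy hvy => (key u hu v hv huv huy hvy).elim,
      fun u hu v hv huv huy hvy => (key u hu v hv huv huy hvy).elim⟩
  · intro c hc h1 h2 h3 _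
    have hsc : s < E l r c := hs2 _ ((hB1 _).2 ⟨c, hc, h1, rfl⟩)
    refine ⟨?_, Finset.mem_insert_of_mem ((hA2 _).2 ⟨c, hc, h2, rfl⟩), s, tendsto_const_nhds, hsc,
      fun p hp h4 => hs1 _ ((hA1 _).2 ⟨p, hp, h4, rfl⟩)⟩
    intro a ha
    rcases Finset.mem_insert.1 ha with rfl | ha
    · exact hsc.le
    · obtain ⟨p, p1, p2, rfl⟩ := (hA2 a).1 ha
      exact Inv.le C I p1 hc (h3 p p1 p2)

/-- the point determined by the placed intervals -/
theorem detp (C : Ctx G l0 r0 dep) (hS : ∀ a, a ∈ S ↔ Od l0 dep a y)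
    (I : Inv G l0 r0 dep S l r)
    (h : ∃ x ∈ S, dep x = dep y ∧ G.Adj x y ∧ ∃ c ∈ S, G.Adj c x ∧ G.Adj c y) :
    ∃ x ∈ S, dep x = dep y ∧ G.Adj x y ∧ l0 x < l0 y ∧
      (∀ x' ∈ S, dep x' = dep y → G.Adj x' y → l0 x' ≤ l0 x) ∧ ∃ m k : ℝ, 0 < k ∧
      (∀ c ∈ S, (c = x ∨ (G.Adj c x ∧ G.Adj c y)) → Thr m k (l c) (r c)) ∧
      (∀ p : V × Bool, p.1 ∈ S → E l0 r0 p < l0 y → E l r p < m) ∧
      ∀ p q : V × Bool, p.1 ∈ S → q.1 ∈ S → E l0 r0 p < l0 y → r0 x < E l0 r0 q →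
        (E l r p - m) * (E l r q - m) + k < 0 := by
  classical
  have hyS : y ∉ S := fun e => by
    rcases (hS y).1 e with h1 | ⟨-, h1⟩
    · exact lt_irrefl _ h1
    · exact lt_irrefl _ h1
  obtain ⟨x1, hx1, dx1, ax1, c1, hc1, ac1x, ac1y⟩ := h
  obtain ⟨x, hxC, hmax⟩ := Finset.exists_max_image (S.filter (fun x => dep x = dep y ∧ G.Adj x y))
    l0 ⟨x1, by simp [hx1, dx1, ax1]⟩
  simp only [Finset.mem_filter] at hxC hmax
  obtain ⟨hxS, dx, axy⟩ := hxC
  have hlt : ∀ x' ∈ S, dep x' = dep y → G.Adj x' y → l0 x' < l0 y := by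
    intro x' h1 h2 _
    rcases (hS x').1 h1 with h4 | ⟨-, h4⟩
    · omega
    · exact h4
  have hxy := hlt x hxS dx axy
  obtain ⟨x_1, x_2⟩ := C.adj_lt axy hxy
  refine ⟨x, hxS, dx, axy, hxy, fun x' h1 h2 h3 => hmax x' ⟨h1, h2, h3⟩, ?_⟩
  by_cases hex : ∃ x' ∈ S, dep x' = dep y ∧ G.Adj x' y ∧ x' ≠ x
  · obtain ⟨x', hx'S, dx', ax'y, hne⟩ := hex
    have hl : l0 x' < l0 x := lt_of_le_of_ne (hmax x' ⟨hx'S, dx', ax'y⟩) (C.lne hne)
    obtain ⟨y_1, y_2⟩ := C.adj_lt ax'y (hlt x' hx'S dx' ax'y)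
    have axx' : G.Adj x x' := C.cross (by omega) hne.symm (Or.inl ⟨hl, hxy.trans y_1⟩)
    obtain ⟨z1, z2⟩ := C.adj_lt axx'.symm hl
    obtain ⟨m, k, hk, t1, t2⟩ := thr_ex (I.ord (x', false) (x, false) hx'S hxS hl)
      (I.ord (x, false) (x', true) hxS hx'S z1) (I.ord (x', true) (x, true) hx'S hxS z2)
    have hlr : l x < r x := I.ord (x, false) (x, true) hxS hxS (C.mod.lt x)
    obtain ⟨loc1, loc2⟩ := thr_loc t2 hk hlr
    have hcl : ∀ p : V × Bool, p.1 ∈ S → E l0 r0 p < l0 y → E l0 r0 p ≤ l0 x := by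
      intro p hp h1
      by_contra h2
      push Not at h2
      obtain ⟨c, b⟩ := p
      have hcx : c ≠ x := by
        rintro rfl
        cases b
        · exact lt_irrefl _ h2
        · exact absurd (x_1.trans h1) (lt_irrefl _)
      have hcx' : c ≠ x' := by
        rintro rfl
        cases b
        · exact lt_asymm h2 hl
        · exact lt_asymm h1 y_1
      have dc := od_dep ((hS c).1 hp)
      have a1 : G.Adj c x := by
        refine C.cross (by omega) hcx ?_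
        cases b
        · exact Or.inl ⟨h2, h1.trans x_1⟩
        · exact Or.inr ⟨h2, h1.trans x_1⟩
      have a2 : G.Adj c x' := by
        refine C.cross (by omega) hcx' ?_
        cases b
        · exact Or.inl ⟨hl.trans h2, h1.trans y_1⟩
        · exact Or.inr ⟨hl.trans h2, h1.trans y_1⟩
      have hcy : c ≠ y := fun e => hyS (e ▸ hp)
      have a3 : G.Adj y c := C.df x x' y c axx' axy ax'y a1.symm a2.symm hcy.symm
      cases b
      · have h3 : l0 c < l0 y := h1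
        rcases Nat.lt_or_ge (dep c) (dep y) with h4 | h4
        · exact C.btw axy a1 a3.symm h2 h3 h4
        · have := hmax c ⟨hp, by omega, a3.symm⟩
          have h2' : l0 x < l0 c := h2
          linarith
      · have h3 : r0 c < l0 y := h1
        rcases C.endin a3.symm with ⟨h4, -⟩ | ⟨h4, -⟩
        · have := C.mod.lt c
          linarith
        · linarith
    refine ⟨m, k, hk, ?_, ?_, ?_⟩
    · rintro c hc (rfl | ⟨h1, h2⟩)
      · exact t2
      · by_cases hcx' : c = x'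
        · subst hcx'
          exact t1
        · have h3 : G.Adj c x' := C.df x y c x' axy h1.symm h2.symm axx' ax'y.symm hcx'
          exact I.con x' hx'S x hxS c hc axx'.symm h3.symm h1.symm m k t1 t2
    · intro p hp h1
      exact lt_of_le_of_lt (Inv.le C I hp (q := (x, false)) hxS (hcl p hp h1)) loc1
    · intro p q hp hq h1 h2
      have h3 : E l r p ≤ l x := Inv.le C I hp (q := (x, false)) hxS (hcl p hp h1)
      have h4 : r x < E l r q := I.ord (x, true) q hxS hq h2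
      have t2' : (l x - m) * (r x - m) + k = 0 := t2
      have l1 : l x < m := loc1
      have l2 : m < r x := loc2
      have e1 := mul_pos (sub_pos.2 l1) (sub_pos.2 h4)
      have e2 := mul_nonneg (sub_nonneg.2 h3) (sub_pos.2 (l2.trans h4)).le
      nlinarith [e1, e2]
  · push Not at hex
    have hc1x : c1 ≠ x → dep c1 < dep y := by
      intro e
      have d1 := od_dep ((hS c1).1 hc1)
      rcases Nat.lt_or_ge (dep c1) (dep y) with h1 | h1
      · exact h1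
      · exact absurd (hex c1 hc1 (by omega) ac1y) e
    have hx1x : x1 = x := hex x1 hx1 dx1 ax1
    subst hx1x
    have hne1 : c1 ≠ x1 := ac1x.ne
    obtain ⟨m, k, hk, t1, t2, h1, h2⟩ := I.la y x1 c1 ⟨hyS, fun a ha => (hS a).2 ha, hxS, hc1, dx,
      axy, hex, hc1x hne1, ac1x, ac1y⟩
    refine ⟨m, k, hk, ?_, h1, h2⟩
    rintro c hc (rfl | ⟨h3, h4⟩)
    · exact t1
    · by_cases hcc : c = c1
      · subst hcc
        exact t2
      · have h5 : G.Adj c c1 := C.df x1 y c c1 axy h3.symm h4.symm ac1x.symm ac1y.symm hcc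
        exact I.con x1 hxS c1 hc1 c hc ac1x.symm h3.symm h5.symm m k t1 t2

end

end Pool.Agent.Helper64.DG
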