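import Pool.Agent.Helper64.DG.Rl

/-! MP_866009_co, Helly models: combinatorial lemmas on nested intervals. -/

set_option autoImplicit false

namespace Pool.Agent.Helper64.DG

open Pool.Agent.Helper64.DT (DF)
open Pool.Agent.Helper64.HG (Ovl Model Circ HellyCircle ChordModel)

variable {V : Type}

/-- a model of a diamond-free graph with a depth function for inclusion -/
structure Ctx (G : SimpleGraph V) (l r : V → ℝ) (dep : V → ℕ) : Prop where
  mod : Model G l r
  df : DF G
  dep1 : ∀ z y, l z < l y → r y < r z → dep z < dep y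
  dep2 : ∀ y, 0 < dep y → ∃ z, l z < l y ∧ r y < r z ∧ dep z + 1 = dep y

/-- the order in which the intervals are placed -/
def Od (l : V → ℝ) (dep : V → ℕ) (a b : V) : Prop := dep a < dep b ∨ (dep a = dep b ∧ l a < l b)

section

variable {G : SimpleGraph V} {l r : V → ℝ} {dep : V → ℕ}

theorem Ctx.adj (C : Ctx G l r dep) (u v : V) : G.Adj u v ↔
    (l u < l v ∧ l v < r u ∧ r u < r v) ∨ (l v < l u ∧ l u < r v ∧ r v < r u) := C.mod.adj u v

theorem Ctx.adj_lt (C : Ctx G l r dep) {u v : V} (h : G.Adj u v) (hl : l u < l v) :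
    l v < r u ∧ r u < r v := by
  rcases (C.adj u v).1 h with ⟨-, h2, h3⟩ | ⟨h1, -, -⟩
  · exact ⟨h2, h3⟩
  · exact absurd h1 (lt_asymm hl)

theorem Ctx.nnest (C : Ctx G l r dep) {u v : V} (h1 : l u < l v) (h2 : r v < r u) : ¬ G.Adj u v := by
  rw [C.adj]
  rintro (⟨-, -, h⟩ | ⟨h, -, -⟩)
  · exact lt_asymm h h2
  · exact lt_asymm h h1

theorem Ctx.lne (C : Ctx G l r dep) {u v : V} (h : u ≠ v) : l u ≠ l v := fun e => h (C.mod.injl e)

theorem Ctx.rne (C : Ctx G l r dep) {u v : V} (h : u ≠ v) : r u ≠ r v := fun e => h (C.mod.injr e)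

/-- an interval with an end inside `y` that is not deeper than `y` crosses `y` -/
theorem Ctx.cross (C : Ctx G l r dep) {a y : V} (hd : dep a ≤ dep y) (hne : a ≠ y)
    (h : (l y < l a ∧ l a < r y) ∨ (l y < r a ∧ r a < r y)) : G.Adj a y := by
  rw [C.adj]
  have hn : ¬ (l y < l a ∧ r a < r y) := fun e => by
    have := C.dep1 y a e.1 e.2
    omega
  rcases h with ⟨h1, h2⟩ | ⟨h1, h2⟩
  · right
    refine ⟨h1, h2, ?_⟩
    rcases lt_or_gt_of_ne (C.rne hne) with h3 | h3
    · exact absurd ⟨h1, h3⟩ hn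
    · exact h3
  · left
    refine ⟨?_, h1, h2⟩
    rcases lt_or_gt_of_ne (C.lne hne) with h3 | h3
    · exact h3
    · exact absurd ⟨h3, h2⟩ hn

/-- a crossing interval has an end inside -/
theorem Ctx.endin (C : Ctx G l r dep) {a y : V} (h : G.Adj a y) :
    (l y < l a ∧ l a < r y) ∨ (l y < r a ∧ r a < r y) := by
  rcases (C.adj a y).1 h with ⟨h1, h2, h3⟩ | ⟨h1, h2, h3⟩
  · exact Or.inr ⟨h2, h3⟩
  · exact Or.inl ⟨h1, h2⟩

/-- an interval crossing `y` crosses every interval containing `y` that is at least as deep -/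
theorem Ctx.crossz (C : Ctx G l r dep) {a y z : V} (h1 : l z < l y) (h2 : r y < r z)
    (h : G.Adj a y) (hd : dep a ≤ dep z) : G.Adj a z := by
  have hne : a ≠ z := by
    rintro rfl
    exact C.nnest h1 h2 h
  refine C.cross hd hne ?_
  rcases C.endin h with ⟨h3, h4⟩ | ⟨h3, h4⟩
  · exact Or.inl ⟨h1.trans h3, h4.trans h2⟩
  · exact Or.inr ⟨h1.trans h3, h4.trans h2⟩

/-- in a triangle at most one vertex is less deep than a given one -/
theorem Ctx.tri (C : Ctx G l r dep) {a b y : V} (hab : G.Adj a b) (hay : G.Adj a y)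
    (hby : G.Adj b y) : dep y ≤ dep a ∨ dep y ≤ dep b := by
  by_contra hc
  push Not at hc
  obtain ⟨z, h1, h2, h3⟩ := C.dep2 y (by omega)
  have haz := C.crossz h1 h2 hay (by omega)
  have hbz := C.crossz h1 h2 hby (by omega)
  have hne : y ≠ z := by
    rintro rfl
    exact lt_irrefl _ h1
  exact C.nnest h1 h2 (C.df a b y z hab hay hby haz hbz hne).symm

/-- a less deep interval crossing `x` and `y` does not start between `x` and `y` -/
theorem Ctx.btw (C : Ctx G l r dep) {x y c : V} (hxy : G.Adj x y) (hcx : G.Adj c x)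
    (hcy : G.Adj c y) (h1 : l x < l c) (h2 : l c < l y) (hd : dep c < dep y) : False := by
  obtain ⟨z, z1, z2, z3⟩ := C.dep2 y (by omega)
  have hcz := C.crossz z1 z2 hcy (by omega)
  obtain ⟨-, c2⟩ := C.adj_lt hcy h2
  have hcz2 : l c < l z := by
    rcases lt_trichotomy (l c) (l z) with h | h | h
    · exact h
    · exact absurd (C.mod.injl h) (fun e => by
        subst e
        exact C.nnest z1 z2 hcy)
    · have := (C.adj_lt hcz.symm h).2
      linarith
  obtain ⟨x1, x2⟩ := C.adj_lt hxy (h1.trans h2)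
  have hxz : G.Adj x z := by
    rw [C.adj]
    left
    exact ⟨h1.trans hcz2, z1.trans x1, x2.trans z2⟩
  have hne : y ≠ z := by
    rintro rfl
    exact lt_irrefl _ z1
  exact C.nnest z1 z2 (C.df c x y z hcx hcy hxy hcz hxz hne).symm

theorem Ctx.od_total (C : Ctx G l r dep) {a b : V} (h : a ≠ b) : Od l dep a b ∨ Od l dep b a := by
  unfold Od
  rcases lt_trichotomy (dep a) (dep b) with h1 | h1 | h1
  · exact Or.inl (Or.inl h1)
  · rcases lt_or_gt_of_ne (C.lne h) with h2 | h2
    · exact Or.inl (Or.inr ⟨h1, h2⟩)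
    · exact Or.inr (Or.inr ⟨h1.symm, h2⟩)
  · exact Or.inr (Or.inl h1)

theorem Ctx.od_asymm (_C : Ctx G l r dep) {a b : V} (h : Od l dep a b) : ¬ Od l dep b a := by
  unfold Od at h ⊢
  rcases h with h | ⟨h1, h2⟩ <;> rintro (h3 | ⟨h3, h4⟩) <;> first | omega | linarith

theorem od_dep {a b : V} (h : Od l dep a b) : dep a ≤ dep b := by
  rcases h with h | ⟨h, -⟩ <;> omega

end

/-- ends of intervals -/
def E (l r : V → ℝ) (p : V × Bool) : ℝ := if p.2 then r p.1 else l p.1

theorem E_f (l r : V → ℝ) (v : V) : E l r (v, false) = l v := rfl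

theorem E_t (l r : V → ℝ) (v : V) : E l r (v, true) = r v := rfl

theorem Ctx.E_inj {G : SimpleGraph V} {l r : V → ℝ} {dep : V → ℕ} (C : Ctx G l r dep) :
    Function.Injective (E l r) := by
  rintro ⟨u, b⟩ ⟨v, c⟩ h
  cases b <;> cases c
  · rw [E_f, E_f] at h
    rw [C.mod.injl h]
  · rw [E_f, E_t] at h
    exact absurd h (C.mod.ne u v)
  · rw [E_t, E_f] at h
    exact absurd h.symm (C.mod.ne v u)
  · rw [E_t, E_t] at h
    rw [C.mod.injr h]

end Pool.Agent.Helper64.DG
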