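import Pool.Agent.Helper64.DG.Defs

/-! MP_866009_co, Helly models: lemmas on real chords. -/

set_option autoImplicit false

namespace Pool.Agent.Helper64.DG

open Filter Topology

theorem thr_loc {m k s t : ℝ} (h : Thr m k s t) (hk : 0 < k) (hst : s < t) : s < m ∧ m < t := by
  unfold Thr at h
  constructor
  · by_contra hc
    push Not at hc
    nlinarith
  · by_contra hc
    push Not at hc
    nlinarith

theorem thr_ex {s1 s2 t1 t2 : ℝ} (h1 : s1 < s2) (h2 : s2 < t1) (h3 : t1 < t2) :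
    ∃ m k : ℝ, 0 < k ∧ Thr m k s1 t1 ∧ Thr m k s2 t2 := by
  have hD : 0 < (s2 + t2) - (s1 + t1) := by linarith
  obtain ⟨m, hm⟩ : ∃ m : ℝ, m = (s2 * t2 - s1 * t1) / ((s2 + t2) - (s1 + t1)) := ⟨_, rfl⟩
  have hmD : m * ((s2 + t2) - (s1 + t1)) = s2 * t2 - s1 * t1 := by
    rw [hm]; field_simp
  have hm1 : s2 < m := by
    rw [hm, lt_div_iff₀ hD]
    nlinarith [mul_pos (sub_pos.2 h1) (sub_pos.2 h2)]
  have hm2 : m < t1 := by
    rw [hm, div_lt_iff₀ hD]
    nlinarith [mul_pos (sub_pos.2 h2) (sub_pos.2 h3)]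
  refine ⟨m, (m - s1) * (t1 - m), mul_pos (by linarith) (by linarith), ?_, ?_⟩
  · unfold Thr; ring
  · unfold Thr; linarith

theorem thr_uniq {m k m' k' s1 s2 t1 t2 : ℝ} (hne : s1 + t1 ≠ s2 + t2) (h1 : Thr m k s1 t1)
    (h2 : Thr m k s2 t2) (h3 : Thr m' k' s1 t1) (h4 : Thr m' k' s2 t2) : m = m' ∧ k = k' := by
  unfold Thr at h1 h2 h3 h4
  have h5 : (m - m') * ((s1 + t1) - (s2 + t2)) = 0 := by linarith
  have h6 : m = m' := by
    rcases mul_eq_zero.1 h5 with h | h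
    · linarith
    · exact absurd (by linarith) hne
  subst h6
  exact ⟨rfl, by linarith⟩

theorem thr_mono {m k s t s' t' : ℝ} (hk : 0 < k) (h : Thr m k s t) (h' : Thr m k s' t')
    (hst : s < t) (hst' : s' < t') (ht : t < t') : s < s' := by
  obtain ⟨a1, a2⟩ := thr_loc h hk hst
  obtain ⟨b1, b2⟩ := thr_loc h' hk hst'
  unfold Thr at h h'
  by_contra hc
  push Not at hc
  nlinarith [mul_pos (sub_pos.2 a1) (sub_pos.2 ht), mul_nonneg (sub_nonneg.2 hc)
    (sub_pos.2 b2).le]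

theorem thr_mono' {m k s t s' t' : ℝ} (hk : 0 < k) (h : Thr m k s t) (h' : Thr m k s' t')
    (hst : s < t) (hst' : s' < t') (hs : s < s') : t < t' := by
  rcases lt_trichotomy t t' with h1 | h1 | h1
  · exact h1
  · subst h1
    unfold Thr at h h'
    obtain ⟨-, a2⟩ := thr_loc (m := m) (k := k) h hk hst
    have : (s - s') * (t - m) = 0 := by linarith
    rcases mul_eq_zero.1 this with h2 | h2 <;> linarith
  · have := thr_mono hk h' h hst' hst h1
    linarith

/-- the left end of the chord with the right end `ρ` through `(m, k)` -/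
noncomputable def lf (m k ρ : ℝ) : ℝ := m - k / (ρ - m)

theorem thr_lf {m k ρ : ℝ} (h : m < ρ) : Thr m k (lf m k ρ) ρ := by
  unfold Thr lf
  have : ρ - m ≠ 0 := by linarith
  field_simp
  ring

theorem lf_lt {m k ρ : ℝ} (hk : 0 < k) (h : m < ρ) : lf m k ρ < m := by
  unfold lf
  have : 0 < k / (ρ - m) := div_pos hk (by linarith)
  linarith

/-- the right end of the chord with the left end `p` through `(m, k)` -/
noncomputable def rg (m k p : ℝ) : ℝ := m + k / (m - p)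

theorem lt_lf {m k ρ p : ℝ} (hk : 0 < k) (h : m < ρ) (hp : p < m) (h2 : rg m k p < ρ) :
    p < lf m k ρ := by
  unfold rg at h2
  unfold lf
  have h3 : k / (m - p) < ρ - m := by linarith
  rw [div_lt_iff₀ (by linarith)] at h3
  have h4 : k / (ρ - m) < m - p := by
    rw [div_lt_iff₀ (by linarith)]
    linarith
  linarith

theorem rg_lt {m k p q : ℝ} (hp : p < m) (h : (p - m) * (q - m) + k < 0) : rg m k p < q := by
  unfold rg
  have h3 : k / (m - p) < q - m := by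
    rw [div_lt_iff₀ (by linarith)]
    linarith
  linarith

theorem tendsto_lf {m k c : ℝ} (h : m < c) : Tendsto (lf m k) (𝓝[>] c) (𝓝 (lf m k c)) := by
  have : ContinuousAt (lf m k) c := by
    unfold lf
    have h1 : c - m ≠ 0 := by linarith
    fun_prop (disch := assumption)
  exact this.tendsto.mono_left nhdsWithin_le_nhds

theorem lim_la {f : ℝ → ℝ} {c l0 a b p q : ℝ} (hf : Tendsto f (𝓝[>] c) (𝓝 l0))
    (hab : (b = c ∧ a < l0) ∨ (a = c ∧ c < b)) (hl : l0 < c) (hp : p < c) (hq : c < q) :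
    ∀ᶠ ρ in 𝓝[>] c, ∀ m k, Thr m k (f ρ) ρ → Thr m k a b → (p - m) * (q - m) + k < 0 := by
  have hid : Tendsto (fun ρ : ℝ => ρ) (𝓝[>] c) (𝓝 c) := tendsto_id.mono_left nhdsWithin_le_nhds
  have hD : Tendsto (fun ρ => (f ρ + ρ) - (a + b)) (𝓝[>] c) (𝓝 ((l0 + c) - (a + b))) :=
    (hf.add hid).sub_const _
  have hN : Tendsto (fun ρ => f ρ * ρ - a * b) (𝓝[>] c) (𝓝 (l0 * c - a * b)) :=
    (hf.mul hid).sub_const _
  have hD0 : (l0 + c) - (a + b) ≠ 0 := by
    rcases hab with ⟨h1, h2⟩ | ⟨h1, h2⟩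
    · subst h1; intro h; linarith
    · subst h1; intro h; linarith
  have hX : Tendsto (fun ρ => ((p * q - a * b) * ((f ρ + ρ) - (a + b)) -
      (f ρ * ρ - a * b) * (p + q - a - b)) / ((f ρ + ρ) - (a + b))) (𝓝[>] c)
      (𝓝 (((p * q - a * b) * ((l0 + c) - (a + b)) - (l0 * c - a * b) * (p + q - a - b)) /
        ((l0 + c) - (a + b)))) :=
    ((hD.const_mul _).sub (hN.mul_const _)).div hD hD0
  have hval : ((p * q - a * b) * ((l0 + c) - (a + b)) - (l0 * c - a * b) * (p + q - a - b)) /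
        ((l0 + c) - (a + b)) = (p - c) * (q - c) := by
    rw [div_eq_iff hD0]
    rcases hab with ⟨h1, h2⟩ | ⟨h1, h2⟩
    · subst h1; ring
    · subst h1; ring
  rw [hval] at hX
  have hneg : (p - c) * (q - c) < 0 := mul_neg_of_neg_of_pos (by linarith) (by linarith)
  have e1 := hX.eventually (gt_mem_nhds hneg)
  have e2 := hD.eventually (isOpen_ne.mem_nhds hD0)
  filter_upwards [e1, e2] with ρ h1 h2 m k h3 h4
  have h2' : (f ρ + ρ) - (a + b) ≠ 0 := h2
  unfold Thr at h3 h4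
  have h5 : m * ((f ρ + ρ) - (a + b)) = f ρ * ρ - a * b := by linarith
  have h6 : (p - m) * (q - m) + k = ((p * q - a * b) * ((f ρ + ρ) - (a + b)) -
      (f ρ * ρ - a * b) * (p + q - a - b)) / ((f ρ + ρ) - (a + b)) := by
    rw [eq_div_iff h2', ← h5]
    have h7 : k = -((a - m) * (b - m)) := by linarith
    rw [h7]
    ring
  rw [h6]
  exact h1

theorem lim_la2 {f : ℝ → ℝ} {c l0 a b p : ℝ} (hf : Tendsto f (𝓝[>] c) (𝓝 l0))
    (hab : (b = c ∧ a < l0) ∨ (a = c ∧ c < b)) (hl : l0 < c) (hp : p < c) :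
    ∀ᶠ ρ in 𝓝[>] c, ∀ m k, Thr m k (f ρ) ρ → Thr m k a b → p < m := by
  have hid : Tendsto (fun ρ : ℝ => ρ) (𝓝[>] c) (𝓝 c) := tendsto_id.mono_left nhdsWithin_le_nhds
  have hD : Tendsto (fun ρ => (f ρ + ρ) - (a + b)) (𝓝[>] c) (𝓝 ((l0 + c) - (a + b))) :=
    (hf.add hid).sub_const _
  have hN : Tendsto (fun ρ => f ρ * ρ - a * b) (𝓝[>] c) (𝓝 (l0 * c - a * b)) :=
    (hf.mul hid).sub_const _
  have hD0 : (l0 + c) - (a + b) ≠ 0 := by
    rcases hab with ⟨h1, h2⟩ | ⟨h1, h2⟩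
    · subst h1; intro h; linarith
    · subst h1; intro h; linarith
  have hX : Tendsto (fun ρ => (f ρ * ρ - a * b) / ((f ρ + ρ) - (a + b))) (𝓝[>] c)
      (𝓝 ((l0 * c - a * b) / ((l0 + c) - (a + b)))) := hN.div hD hD0
  have hval : (l0 * c - a * b) / ((l0 + c) - (a + b)) = c := by
    rw [div_eq_iff hD0]
    rcases hab with ⟨h1, h2⟩ | ⟨h1, h2⟩
    · subst h1; ring
    · subst h1; ring
  rw [hval] at hX
  have e1 := hX.eventually (lt_mem_nhds hp)
  have e2 := hD.eventually (isOpen_ne.mem_nhds hD0)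
  filter_upwards [e1, e2] with ρ h1 h2 m k h3 h4
  have h2' : (f ρ + ρ) - (a + b) ≠ 0 := h2
  unfold Thr at h3 h4
  have h5 : m * ((f ρ + ρ) - (a + b)) = f ρ * ρ - a * b := by linarith
  have h6 : m = (f ρ * ρ - a * b) / ((f ρ + ρ) - (a + b)) := by
    rw [eq_div_iff h2', ← h5]
  rw [h6]
  exact h1

end Pool.Agent.Helper64.DG
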