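import Pool.Agent.Helper64.DG.Ca

/-! MP_866009_co, Helly models: the induction. -/

set_option autoImplicit false

namespace Pool.Agent.Helper64.DG

open Pool.Agent.Helper64.DT (DF)
open Pool.Agent.Helper64.HG (Ovl Model Circ HellyCircle ChordModel)
open Filter Topology

variable {V : Type} {G : SimpleGraph V} {l0 r0 l r : V → ℝ} {dep : V → ℕ} {S : Finset V} {y : V}

/-- the end of `w` inside `y` and `y2` is the last end before the right end of `y` -/
theorem near_w (C : Ctx G l0 r0 dep) (hS : ∀ a, a ∈ S ↔ Od l0 dep a y) {y2 w : V}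
    (hd : dep y = dep y2) (hyy : G.Adj y y2) (hl : l0 y < l0 y2)
    (huq : ∀ x ∈ S, dep x = dep y2 → ¬ G.Adj x y2) (hw : w ∈ S) (hdw : dep w < dep y2)
    (hwy : G.Adj w y) (hwy2 : G.Adj w y2) :
    ∃ c : V × Bool, c.1 = w ∧ l0 y2 < E l0 r0 c ∧ E l0 r0 c < r0 y ∧
      (∀ q : V × Bool, q.1 ∈ S → E l0 r0 q < r0 y → E l0 r0 q ≤ E l0 r0 c) ∧
      (∀ x ∈ S, dep x = dep y → G.Adj x y → r0 x < E l0 r0 c) ∧
      ((c.2 = true ∧ l0 w < l0 y) ∨ (c.2 = false ∧ r0 y2 < r0 w)) := by
  have hyS : y ∉ S := fun e => by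
    rcases (hS y).1 e with h1 | ⟨-, h1⟩
    · exact lt_irrefl _ h1
    · exact lt_irrefl _ h1
  obtain ⟨y1, y_2⟩ := C.adj_lt hyy hl
  -- the end
  have hc : ∃ c : V × Bool, c.1 = w ∧ l0 y2 < E l0 r0 c ∧ E l0 r0 c < r0 y ∧
      ((c.2 = true ∧ l0 w < l0 y) ∨ (c.2 = false ∧ r0 y2 < r0 w)) := by
    rcases (C.adj w y2).1 hwy2 with ⟨h1, h2, h3⟩ | ⟨h1, h2, h3⟩
    · -- `w` starts before `y2`
      rcases (C.adj w y).1 hwy with ⟨g1, g2, g3⟩ | ⟨g1, g2, g3⟩
      · exact ⟨(w, true), rfl, h2, g3, Or.inl ⟨rfl, g1⟩⟩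
      · exact (C.btw hyy hwy hwy2 g1 h1 hdw).elim
    · rcases (C.adj w y).1 hwy with ⟨g1, g2, g3⟩ | ⟨g1, g2, g3⟩
      · exact absurd (g1.trans (hl.trans h1)) (lt_irrefl _)
      · exact ⟨(w, false), rfl, h1, g2, Or.inr ⟨rfl, h3⟩⟩
  obtain ⟨c, hcw, c1, c2, c3⟩ := hc
  refine ⟨c, hcw, c1, c2, ?_, ?_, c3⟩
  · intro q hq h1
    by_contra h2
    push Not at h2
    obtain ⟨d, b⟩ := q
    have dd := od_dep ((hS d).1 hq)
    have hdy : d ≠ y := fun e => hyS (e ▸ hq)
    have hdy2 : d ≠ y2 := by
      rintro rfl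
      rcases (hS d).1 hq with h3 | ⟨-, h3⟩
      · omega
      · exact lt_asymm h3 hl
    have a1 : G.Adj d y := by
      refine C.cross dd hdy ?_
      cases b
      · exact Or.inl ⟨hl.trans (c1.trans h2), h1⟩
      · exact Or.inr ⟨hl.trans (c1.trans h2), h1⟩
    have a2 : G.Adj d y2 := by
      refine C.cross (by omega) hdy2 ?_
      cases b
      · exact Or.inl ⟨c1.trans h2, LT.lt.trans h1 y_2⟩
      · exact Or.inr ⟨c1.trans h2, LT.lt.trans h1 y_2⟩
    have hd2 : dep d < dep y2 := by
      rcases Nat.lt_or_ge (dep d) (dep y2) with h3 | h3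
      · exact h3
      · exact absurd a2 (huq d hq (by omega))
    have hdw2 : w ≠ d := by
      rintro rfl
      obtain ⟨cw, cb⟩ := c
      simp only at hcw
      subst hcw
      -- the other end of `w` is outside `y`
      cases b <;> cases cb
      · exact lt_irrefl _ h2
      · -- `c` is the right end, `q` the left end
        have h3 : r0 cw < l0 cw := h2
        exact lt_asymm h3 (C.mod.lt cw)
      · -- `c` is the left end, `q` the right end
        rcases c3 with ⟨h4, -⟩ | ⟨-, h4⟩
        · exact absurd h4 (by simp)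
        · have h5 : r0 cw < r0 y := h1
          exact absurd (h5.trans (y_2.trans h4)) (lt_irrefl _)
      · exact lt_irrefl _ h2
    have a3 : G.Adj w d := C.df y y2 w d hyy hwy.symm hwy2.symm a1.symm a2.symm hdw2
    rcases C.tri a3 hwy2 a2 with h3 | h3 <;> omega
  · intro x hx h1 h2
    have hlx : l0 x < l0 y := by
      rcases (hS x).1 hx with h3 | ⟨-, h3⟩
      · omega
      · exact h3
    have h3 : ¬ G.Adj x y2 := huq x hx (by omega)
    have hne : x ≠ y2 := by
      rintro rfl
      exact lt_asymm hlx hl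
    by_contra h4
    push Not at h4
    refine h3 (C.cross (by omega) hne (Or.inr ⟨lt_of_lt_of_le c1 h4, ?_⟩))
    exact (C.adj_lt h2 hlx).2.trans y_2

theorem E_upd_ne [DecidableEq V] {s t : ℝ} {p : V × Bool} (h : p.1 ≠ y) :
    E (Function.update l y s) (Function.update r y t) p = E l r p := by
  unfold E
  rw [Function.update_of_ne h, Function.update_of_ne h]

/-- the placement of one more interval keeps order and concurrency -/
theorem ps_ord [DecidableEq V] (C : Ctx G l0 r0 dep) (I : Inv G l0 r0 dep S l r)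
    (hyS : y ∉ S) {s t : ℝ} (P : Ps G l0 r0 S l r y s t) : ∀ p q : V × Bool, p.1 ∈ insert y S →
    q.1 ∈ insert y S → E l0 r0 p < E l0 r0 q →
    E (Function.update l y s) (Function.update r y t) p <
      E (Function.update l y s) (Function.update r y t) q := by
  have ef : E (Function.update l y s) (Function.update r y t) (y, false) = s := by
    rw [E_f, Function.update_self]
  have et : E (Function.update l y s) (Function.update r y t) (y, true) = t := by
    rw [E_t, Function.update_self]
  intro p q hp hq h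
  have hy := C.mod.lt y
  rcases Finset.mem_insert.1 hp with hp1 | hp1
  · obtain ⟨pv, pb⟩ := p
    simp only at hp1
    subst hp1
    rcases Finset.mem_insert.1 hq with hq1 | hq1
    · obtain ⟨qv, qb⟩ := q
      simp only at hq1
      subst hq1
      cases pb <;> cases qb
      · exact absurd h (lt_irrefl _)
      · rw [ef, et]
        exact P.st
      · have h1 : r0 qv < l0 qv := h
        exact absurd h1 (lt_asymm hy)
      · exact absurd h (lt_irrefl _)
    · have hqy : q.1 ≠ pv := fun e => hyS (e ▸ hq1)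
      rw [E_upd_ne hqy]
      cases pb
      · rw [ef]
        exact P.p2 q hq1 h
      · rw [et]
        exact P.p4 q hq1 h
  · have hpy : p.1 ≠ y := fun e => hyS (e ▸ hp1)
    rw [E_upd_ne hpy]
    rcases Finset.mem_insert.1 hq with hq1 | hq1
    · obtain ⟨qv, qb⟩ := q
      simp only at hq1
      subst hq1
      cases qb
      · rw [ef]
        exact P.p1 p hp1 h
      · rw [et]
        exact P.p3 p hp1 h
    · have hqy : q.1 ≠ y := fun e => hyS (e ▸ hq1)
      rw [E_upd_ne hqy]
      exact I.ord p q hp1 hq1 h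

theorem ps_con [DecidableEq V] (I : Inv G l0 r0 dep S l r)
    (hyS : y ∉ S) {s t : ℝ} (P : Ps G l0 r0 S l r y s t) : ∀ u ∈ insert y S, ∀ v ∈ insert y S,
    ∀ w ∈ insert y S, G.Adj u v → G.Adj u w → G.Adj v w → ∀ m k : ℝ,
    Thr m k (Function.update l y s u) (Function.update r y t u) →
    Thr m k (Function.update l y s v) (Function.update r y t v) →
    Thr m k (Function.update l y s w) (Function.update r y t w) := by
  have ne : ∀ a ∈ S, a ≠ y := fun a ha e => hyS (e ▸ ha)
  have ul : ∀ a ∈ S, Function.update l y s a = l a := fun a ha => Function.update_of_ne (ne a ha) _ _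
  have ur : ∀ a ∈ S, Function.update r y t a = r a := fun a ha => Function.update_of_ne (ne a ha) _ _
  have yl : Function.update l y s y = s := Function.update_self _ _ _
  have yr : Function.update r y t y = t := Function.update_self _ _ _
  intro u hu v hv w hw huv huw hvw m k t1 t2
  rcases Finset.mem_insert.1 hu with hu1 | hu1
  · subst hu1
    have hv1 : v ∈ S := by
      rcases Finset.mem_insert.1 hv with h | h
      · exact absurd h huv.ne'
      · exact h
    have hw1 : w ∈ S := by
      rcases Finset.mem_insert.1 hw with h | h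
      · exact absurd h huw.ne'
      · exact h
    rw [yl, yr] at t1
    rw [ul v hv1, ur v hv1] at t2
    rw [ul w hw1, ur w hw1]
    exact P.c2 v hv1 w hw1 hvw huv.symm huw.symm m k t2 t1
  · rcases Finset.mem_insert.1 hv with hv1 | hv1
    · subst hv1
      have hw1 : w ∈ S := by
        rcases Finset.mem_insert.1 hw with h | h
        · exact absurd h hvw.ne'
        · exact h
      rw [ul u hu1, ur u hu1] at t1
      rw [yl, yr] at t2
      rw [ul w hw1, ur w hw1]
      exact P.c2 u hu1 w hw1 huw huv hvw.symm m k t1 t2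
    · rcases Finset.mem_insert.1 hw with hw1 | hw1
      · subst hw1
        rw [ul u hu1, ur u hu1] at t1
        rw [ul v hv1, ur v hv1] at t2
        rw [yl, yr]
        exact P.c1 u hu1 v hv1 huv huw hvw m k t1 t2
      · rw [ul u hu1, ur u hu1] at t1
        rw [ul v hv1, ur v hv1] at t2
        rw [ul w hw1, ur w hw1]
        exact I.con u hu1 v hv1 w hw1 huv huw hvw m k t1 t2

end Pool.Agent.Helper64.DG
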