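import Pool.Agent.Helper64.DG.Sp

/-! MP_866009_co, Helly models: one step of the induction. -/

set_option autoImplicit false

namespace Pool.Agent.Helper64.DG

open Pool.Agent.Helper64.DT (DF)
open Pool.Agent.Helper64.HG (Ovl Model Circ HellyCircle ChordModel)
open Filter Topology

variable {V : Type} {G : SimpleGraph V} {l0 r0 l r : V → ℝ} {dep : V → ℕ} {S : Finset V} {y : V}

theorem ev_la [Finite V] (C : Ctx G l0 r0 dep) (hS : ∀ a, a ∈ S ↔ Od l0 dep a y)
    (I : Inv G l0 r0 dep S l r) {f : ℝ → ℝ} {LB UB : Finset ℝ}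
    (J : Ins G l0 r0 dep S l r y f LB UB) {y2 w : V}
    (hd : dep y = dep y2) (hyy : G.Adj y y2) (hl : l0 y < l0 y2)
    (huq : ∀ x ∈ S, dep x = dep y2 → ¬ G.Adj x y2) (hw : w ∈ S) (hdw : dep w < dep y2)
    (hwy : G.Adj w y) (hwy2 : G.Adj w y2) :
    ∀ᶠ t in 𝓝[>] (LB.max' J.ne), ∀ p : V × Bool, p.1 ∈ S → E l0 r0 p < l0 y2 →
      ∀ m k, Thr m k (f t) t → Thr m k (l w) (r w) → E l r p < m ∧
        ∀ q : V × Bool, q.1 ∈ S → r0 y < E l0 r0 q → (E l r p - m) * (E l r q - m) + k < 0 := by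
  obtain ⟨c, hcw, c1, c2, c3, c4, c5⟩ := near_w C hS hd hyy hl huq hw hdw hwy hwy2
  have hcS : c.1 ∈ S := by rw [hcw]; exact hw
  obtain ⟨n1, n2, s0, n3, n4, n5⟩ := J.near c hcS (hl.trans c1) c2 c3 c4
  have ha0 : LB.max' J.ne = E l r c := by
    refine le_antisymm (Finset.max'_le _ _ _ n1) (Finset.le_max' _ _ n2)
  rw [ha0]
  have hlw : l w < r w := I.ord (w, false) (w, true) hw hw (C.mod.lt w)
  have hab : (r w = E l r c ∧ l w < s0) ∨ (l w = E l r c ∧ E l r c < r w) := by
    obtain ⟨cv, cb⟩ := c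
    simp only at hcw
    subst hcw
    rcases c5 with ⟨h1, h2⟩ | ⟨h1, h2⟩
    · simp only at h1
      subst h1
      exact Or.inl ⟨rfl, n5 (cv, false) hw h2⟩
    · simp only at h1
      subst h1
      exact Or.inr ⟨rfl, hlw⟩
  rw [Filter.eventually_all]
  intro p
  by_cases hp : p.1 ∈ S ∧ E l0 r0 p < l0 y2
  · have hpc : E l r p < E l r c := I.ord p c hp.1 hcS (hp.2.trans c1)
    have e1 := lim_la2 n3 hab n4 hpc
    have e2 : ∀ᶠ t in 𝓝[>] (E l r c), ∀ q : V × Bool, q.1 ∈ S → r0 y < E l0 r0 q →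
        ∀ m k, Thr m k (f t) t → Thr m k (l w) (r w) → (E l r p - m) * (E l r q - m) + k < 0 := by
      rw [Filter.eventually_all]
      intro q
      by_cases hq : q.1 ∈ S ∧ r0 y < E l0 r0 q
      · have hcq : E l r c < E l r q := I.ord c q hcS hq.1 (c2.trans hq.2)
        filter_upwards [lim_la n3 hab n4 hpc hcq] with t ht _ _
        exact ht
      · exact Filter.Eventually.of_forall (fun t h1 h2 => absurd ⟨h1, h2⟩ hq)
    filter_upwards [e1, e2] with t h1 h2 _ _ m k h3 h4
    exact ⟨h1 m k h3 h4, fun q hq1 hq2 => h2 q hq1 hq2 m k h3 h4⟩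
  · exact Filter.Eventually.of_forall (fun t h1 h2 => absurd ⟨h1, h2⟩ hp)

theorem step [Finite V] [DecidableEq V] (C : Ctx G l0 r0 dep) (hS : ∀ a, a ∈ S ↔ Od l0 dep a y)
    (I : Inv G l0 r0 dep S l r) : ∃ l' r', Inv G l0 r0 dep (insert y S) l' r' := by
  have hyS : y ∉ S := fun e => by
    rcases (hS y).1 e with h1 | ⟨-, h1⟩
    · exact lt_irrefl _ h1
    · exact lt_irrefl _ h1
  obtain ⟨f, LB, UB, J⟩ : ∃ f LB UB, Ins G l0 r0 dep S l r y f LB UB := by
    by_cases h : ∃ x ∈ S, dep x = dep y ∧ G.Adj x y ∧ ∃ c ∈ S, G.Adj c x ∧ G.Adj c y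
    · exact caseI C hS I h
    · exact caseII C hS I h
  have ev1 : ∀ᶠ t in 𝓝[>] (LB.max' J.ne), ∀ b ∈ UB, t < b := by
    rw [Filter.eventually_all_finset]
    intro b hb
    have h1 : LB.max' J.ne < b := J.sep _ (Finset.max'_mem _ _) b hb
    exact (gt_mem_nhds h1).filter_mono nhdsWithin_le_nhds
  have ev2 : ∀ᶠ t in 𝓝[>] (LB.max' J.ne), LB.max' J.ne < t := self_mem_nhdsWithin
  have ev3 : ∀ᶠ t in 𝓝[>] (LB.max' J.ne), ∀ y2 w : V, dep y = dep y2 → G.Adj y y2 →
      l0 y < l0 y2 → (∀ x ∈ S, dep x = dep y2 → ¬ G.Adj x y2) → w ∈ S → dep w < dep y2 →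
      G.Adj w y → G.Adj w y2 → ∀ p : V × Bool, p.1 ∈ S → E l0 r0 p < l0 y2 →
      ∀ m k, Thr m k (f t) t → Thr m k (l w) (r w) → E l r p < m ∧
        ∀ q : V × Bool, q.1 ∈ S → r0 y < E l0 r0 q →
          (E l r p - m) * (E l r q - m) + k < 0 := by
    rw [Filter.eventually_all]
    intro y2
    rw [Filter.eventually_all]
    intro w
    by_cases h : dep y = dep y2 ∧ G.Adj y y2 ∧ l0 y < l0 y2 ∧
      (∀ x ∈ S, dep x = dep y2 → ¬ G.Adj x y2) ∧ w ∈ S ∧ dep w < dep y2 ∧ G.Adj w y ∧ G.Adj w y2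
    · obtain ⟨h1, h2, h3, h4, h5, h6, h7, h8⟩ := h
      filter_upwards [ev_la C hS I J h1 h2 h3 h4 h5 h6 h7 h8] with t ht _ _ _ _ _ _ _ _
      exact ht
    · exact Filter.Eventually.of_forall (fun t h1 h2 h3 h4 h5 h6 h7 h8 =>
        absurd ⟨h1, h2, h3, h4, h5, h6, h7, h8⟩ h)
  obtain ⟨t, t1, t2, t3⟩ := (ev1.and (ev2.and ev3)).exists
  have hLB : ∀ a ∈ LB, a < t := fun a ha => lt_of_le_of_lt (Finset.le_max' _ _ ha) t2
  have P := J.ok t hLB t1
  have ord := ps_ord C I hyS P
  have con := ps_con I hyS P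
  refine ⟨Function.update l y (f t), Function.update r y t, ord, con, ?_⟩
  intro y2 x w N
  have hyin : y ∈ insert y S := Finset.mem_insert_self _ _
  have hne : y2 ≠ y := fun e => N.yS (e ▸ hyin)
  have hod : Od l0 dep y y2 := by
    rcases C.od_total hne with h | h
    · exact absurd (Finset.mem_insert_of_mem ((hS y2).2 h)) N.yS
    · exact h
  have hdle := od_dep hod
  have hxy : x = y := by
    by_contra hc
    have hxS : x ∈ S := by
      rcases Finset.mem_insert.1 N.xS with h | h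
      · exact absurd h hc
      · exact h
    have hox := (hS x).1 hxS
    have hdx := od_dep hox
    have ndx := N.dx
    have hlx : l0 x < l0 y := by
      rcases hox with h | ⟨-, h⟩
      · omega
      · exact h
    have hly : l0 y < l0 y2 := by
      rcases hod with h | ⟨-, h⟩
      · omega
      · exact h
    obtain ⟨g1, g2⟩ := C.adj_lt N.xy (hlx.trans hly)
    have g3 : r0 x < r0 y := by
      rcases lt_or_gt_of_ne (C.rne hc) with h | h
      · exact h
      · have := C.dep1 x y hlx h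
        omega
    have g4 : r0 y < r0 y2 := by
      rcases lt_or_gt_of_ne (C.rne hne) with h | h
      · have := C.dep1 y y2 hly h
        omega
      · exact h
    have g5 : G.Adj y y2 := C.cross hdle hne.symm (Or.inr ⟨g1.trans g3, g4⟩)
    exact hc (N.uq y hyin (by omega) g5).symm
  have N' := N
  subst hxy
  have hd : dep x = dep y2 := N.dx
  have hl : l0 x < l0 y2 := by
    rcases hod with h | ⟨-, h⟩
    · omega
    · exact h
  have hwS : w ∈ S := by
    rcases Finset.mem_insert.1 N.wS with h | h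
    · have := N.dw
      rw [h] at this
      omega
    · exact h
  have hwx : w ≠ x := fun e => hyS (e ▸ hwS)
  have huq : ∀ x' ∈ S, dep x' = dep y2 → ¬ G.Adj x' y2 := fun x' h1 h2 h3 =>
    hyS ((N.uq x' (Finset.mem_insert_of_mem h1) h2 h3) ▸ h1)
  have T := t3 y2 w hd N.xy hl huq hwS N.dw N.wx N.wy
  have eyl : Function.update l x (f t) x = f t := Function.update_self _ _ _
  have eyr : Function.update r x t x = t := Function.update_self _ _ _
  have ewl : Function.update l x (f t) w = l w := Function.update_of_ne hwx _ _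
  have ewr : Function.update r x t w = r w := Function.update_of_ne hwx _ _
  have hex : ∃ m k : ℝ, 0 < k ∧ Thr m k (f t) t ∧ Thr m k (l w) (r w) := by
    rcases (C.adj w x).1 N.wx with ⟨h1, h2, h3⟩ | ⟨h1, h2, h3⟩
    · have a1 : l w < f t := P.p1 (w, false) hwS h1
      have a2 : f t < r w := P.p2 (w, true) hwS h2
      have a3 : r w < t := P.p3 (w, true) hwS h3
      obtain ⟨m, k, hk, b1, b2⟩ := thr_ex a1 a2 a3
      exact ⟨m, k, hk, b2, b1⟩
    · have a1 : f t < l w := P.p2 (w, false) hwS h1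
      have a2 : l w < t := P.p3 (w, false) hwS h2
      have a3 : t < r w := P.p4 (w, true) hwS h3
      obtain ⟨m, k, hk, b1, b2⟩ := thr_ex a1 a2 a3
      exact ⟨m, k, hk, b1, b2⟩
  obtain ⟨m, k, hk, b1, b2⟩ := hex
  obtain ⟨lc1, lc2⟩ := thr_loc b1 hk P.st
  have hyy2 := (C.adj_lt N.xy hl).1
  refine ⟨m, k, hk, by rw [eyl, eyr]; exact b1, by rw [ewl, ewr]; exact b2, ?_, ?_⟩
  · intro p hp h1
    rcases Finset.mem_insert.1 hp with hp1 | hp1
    · obtain ⟨pv, pb⟩ := p
      simp only at hp1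
      subst hp1
      cases pb
      · rw [E_f, eyl]
        exact lc1
      · exact absurd (LT.lt.trans h1 hyy2) (lt_irrefl _)
    · have hpx : p.1 ≠ x := by
        intro e
        rw [e] at hp1
        exact hyS hp1
      rw [E_upd_ne hpx]
      exact (T p hp1 h1 m k b1 b2).1
  · intro p q hp hq h1 h2
    have hqS : q.1 ∈ S := by
      rcases Finset.mem_insert.1 hq with hq1 | hq1
      · obtain ⟨qv, qb⟩ := q
        simp only at hq1
        subst hq1
        cases qb
        · exact absurd (LT.lt.trans h2 (C.mod.lt _)) (lt_irrefl _)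
        · exact absurd h2 (lt_irrefl _)
      · exact hq1
    have hqx : q.1 ≠ x := by
      intro e
      rw [e] at hqS
      exact hyS hqS
    rw [E_upd_ne hqx]
    rcases Finset.mem_insert.1 hp with hp1 | hp1
    · obtain ⟨pv, pb⟩ := p
      simp only at hp1
      subst hp1
      cases pb
      · rw [E_f, eyl]
        have h3 : t < E l r q := P.p4 q hqS h2
        have b1' : (f t - m) * (t - m) + k = 0 := b1
        nlinarith [mul_pos (sub_pos.2 lc1) (sub_pos.2 h3)]
      · exact absurd (LT.lt.trans h1 hyy2) (lt_irrefl _)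
    · have hpx : p.1 ≠ x := by
        intro e
        rw [e] at hp1
        exact hyS hp1
      rw [E_upd_ne hpx]
      exact (T p hp1 h1 m k b1 b2).2 q hqS h2

end Pool.Agent.Helper64.DG
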